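import Pool.Agent.K3h14.LM.Stm

/-!
# Brick STB: graded subspaces stable under `L` and the inverse of `L ^ c`
-/

set_option autoImplicit false

open CategoryTheory AlgebraicGeometry

universe u v

namespace Pool.Agent.K3h55.LM

open Pool.Agent.H914 Pool.Agent.H447 Pool.Agent.K3h14.LM

/-- STB -/
theorem t_STB : S_STB.{u, v} := by
  intro K _ V _ _ _ gr h n hgr L hL hLef U hU hLU c hc
  obtain ⟨inj, surj⟩ := hLef (n - c) (Nat.sub_le _ _)
  have e1 : n - (n - c) = c := Nat.sub_sub_self hc
  have e2 : 2 * n - (n - c) = n + c := by omega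
  rw [e1] at inj surj
  rw [e2] at surj
  have hdeg : ∀ a ∈ gr (n - c), (L ^ c) a ∈ gr (n + c) := by
    intro a ha
    have h1 := (hL.pow c) ((n - c : ℕ) : ℤ) a (by rw [grZ_natCast]; exact ha)
    have h2 : ((n - c : ℕ) : ℤ) + (c : ℤ) * 2 = ((n + c : ℕ) : ℤ) := by
      push_cast [Nat.cast_sub hc]
      ring
    rw [h2, grZ_natCast] at h1
    exact h1
  have hLcU : ∀ m : ℕ, ∀ a ∈ U, (L ^ m) a ∈ U := by
    intro m
    induction m with
    | zero =>
      intro a ha
      simpa using ha
    | succ m ih =>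
      intro a ha
      rw [pow_succ', Module.End.mul_apply]
      exact hLU _ (ih a ha)
  have hmap : ∀ a ∈ gr (n - c) ⊓ U, (L ^ c) a ∈ gr (n + c) ⊓ U := fun a ha =>
    Submodule.mem_inf.2 ⟨hdeg a (Submodule.mem_inf.1 ha).1, hLcU c a (Submodule.mem_inf.1 ha).2⟩
  let F : ↥(gr (n - c) ⊓ U) →ₗ[K] ↥(gr (n + c) ⊓ U) := (L ^ c).restrict hmap
  have hF : Function.Injective F := by
    rw [← LinearMap.ker_eq_bot, LinearMap.ker_eq_bot']
    rintro ⟨a, ha⟩ hFa
    have h1 : (L ^ c) a = 0 := congrArg Subtype.val hFa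
    exact Subtype.ext (inj a (Submodule.mem_inf.1 ha).1 h1)
  refine ⟨LinearMap.finrank_le_finrank_of_injective hF, fun T hT => ⟨fun hTU => ?_, fun heq => ?_⟩⟩
  · have hsurj : Function.Surjective F := by
      rintro ⟨b, hb⟩
      obtain ⟨a, ha, hab⟩ := surj b (Submodule.mem_inf.1 hb).1
      have hTb : T b = a := by
        rw [← hab]
        exact hT.1 a ha
      refine ⟨⟨a, Submodule.mem_inf.2 ⟨ha, hTb ▸ hTU b (Submodule.mem_inf.1 hb).2⟩⟩, ?_⟩
      exact Subtype.ext hab
    exact (LinearEquiv.ofBijective F ⟨hF, hsurj⟩).finrank_eq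
  · have hsurj : Function.Surjective F :=
      (LinearMap.injective_iff_surjective_of_finrank_eq_finrank heq).1 hF
    intro x hx
    have hy := hU x hx (n + c)
    have hx1 : x = ∑ i ∈ Finset.range (2 * n + 1), proj h i x := by
      have h3 := congrArg (fun f : Module.End K V => f x) (sum_proj h hgr)
      simp only [LinearMap.sum_apply, Module.End.one_apply] at h3
      exact h3.symm
    have hTx : T x = T (proj h (n + c) x) := by
      calc T x = T (∑ i ∈ Finset.range (2 * n + 1), proj h i x) := by rw [← hx1]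
        _ = ∑ i ∈ Finset.range (2 * n + 1), T (proj h i x) := map_sum _ _ _
        _ = T (proj h (n + c) x) :=
          Finset.sum_eq_single (n + c) (fun i _ hi => hT.2 i hi _ (proj_mem h i x))
            (fun hi => absurd (Finset.mem_range.2 (by omega)) hi)
    obtain ⟨⟨a, ha⟩, hab⟩ := hsurj ⟨proj h (n + c) x, Submodule.mem_inf.2 ⟨proj_mem h _ x, hy⟩⟩
    have h4 : (L ^ c) a = proj h (n + c) x := congrArg Subtype.val hab
    rw [hTx, ← h4, hT.1 a (Submodule.mem_inf.1 ha).1]
    exact (Submodule.mem_inf.1 ha).2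

end Pool.Agent.K3h55.LM
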